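import Pool.Agent.W_626a77_h42.Main

/-!
# Polynomial Freiman-Ruzsa over the integers for iterated sumsets (MP_626a77_co, helper42)
-/

set_option autoImplicit false

open scoped Pointwise

namespace Pool.Agent.W_626a77_h42

/-- The sums of `m` elements of `A` form the `m`-fold sumset. -/
theorem image_sum_eq (A : Finset ℤ) (m : ℕ) :
    ((Fintype.piFinset fun _ : Fin m => A).image fun f => ∑ i, f i) = msum m A := by
  induction m with
  | zero =>
    ext x
    rw [msum_zero, Finset.mem_image, Finset.mem_singleton]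
    constructor
    · rintro ⟨f, _, rfl⟩; simp
    · rintro rfl
      exact ⟨fun i => i.elim0, Fintype.mem_piFinset.2 fun i => i.elim0, by simp⟩
  | succ m ih =>
    ext x
    rw [msum_succ, ← ih, Finset.mem_image, Finset.mem_add]
    constructor
    · rintro ⟨f, hf, rfl⟩
      rw [Fintype.mem_piFinset] at hf
      refine ⟨∑ i : Fin m, f (Fin.castSucc i), ?_, f (Fin.last m), hf _, ?_⟩
      · rw [Finset.mem_image]
        exact ⟨fun i => f (Fin.castSucc i), by rw [Fintype.mem_piFinset]; exact fun i => hf _, rfl⟩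
      · rw [Fin.sum_univ_castSucc]
    · rintro ⟨y, hy, z, hz, rfl⟩
      rw [Finset.mem_image] at hy
      obtain ⟨f, hf, rfl⟩ := hy
      rw [Fintype.mem_piFinset] at hf
      refine ⟨Fin.snoc (α := fun _ => ℤ) f z, ?_, ?_⟩
      · rw [Fintype.mem_piFinset]
        intro i
        refine Fin.lastCases ?_ (fun j => ?_) i
        · rw [Fin.snoc_last]; exact hz
        · rw [Fin.snoc_castSucc]; exact hf j
      · rw [Fin.sum_univ_castSucc]
        simp only [Fin.snoc_castSucc, Fin.snoc_last]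

/-- Polynomial Freiman-Ruzsa over `ℤ` for `m`-fold sumsets, `m ≥ (1 + log K) ^ ε`. -/
theorem polynomial (ε : ℝ) (hε : 0 < ε) :
    ∃ C : ℝ, 0 < C ∧ ∀ (m : ℕ) (K : ℝ) (A : Finset ℤ), 2 ≤ m → (1 + Real.log K) ^ ε ≤ m →
      A.Nonempty →
      ((((Fintype.piFinset fun _ : Fin m => A).image fun f => ∑ i, f i).card : ℝ) ≤
        K * (A.card : ℝ)) →
      ∃ (d : ℕ) (B : Set (Fin d → ℝ)) (v : Fin d → ℤ) (T : Finset ℤ),
        (d : ℝ) ≤ C * (1 + Real.log K / Real.log m) ∧
        Convex ℝ B ∧ IsCompact B ∧ (interior B).Nonempty ∧ (∀ x ∈ B, -x ∈ B) ∧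
        ({x : Fin d → ℤ | (fun i => (x i : ℝ)) ∈ B}.ncard ≤ A.card) ∧
        ((T.card : ℝ) ≤ C * K ^ C) ∧
        ∀ a ∈ A, ∃ t ∈ T, ∃ x : Fin d → ℤ,
          (fun i => (x i : ℝ)) ∈ B ∧ a = t + ∑ i, v i * x i := by
  obtain ⟨C₀, hC₀, h⟩ := iterated
  set C₁ := C₀ * (1 + 1 / ε) with hC₁
  have hC₁0 : 0 < C₁ := by positivity
  have hCe : C₁ ≤ Real.exp C₁ := by
    have := Real.add_one_le_exp C₁
    linarith
  have hC₀₁ : C₀ ≤ C₁ := by
    rw [hC₁]
    have : 0 < C₀ * (1 / ε) := by positivity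
    linarith
  refine ⟨Real.exp C₁, Real.exp_pos _, ?_⟩
  intro m K A hm hmK hA hmA
  rw [image_sum_eq] at hmA
  obtain ⟨d, B, v, T, hd, h1, h2, h3, h4, h5, hT, h6⟩ := h m K A hm hA hmA
  have hA0 : (0:ℝ) < A.card := by exact_mod_cast Finset.card_pos.2 hA
  have hK : 1 ≤ K := by
    have h1 : (A.card : ℝ) ≤ (msum m A).card := by
      have := card_msum_mono hA (by omega : 1 ≤ m)
      rw [msum_one] at this
      exact_mod_cast this
    have h2 : (1:ℝ) * A.card ≤ K * A.card := by rw [one_mul]; exact h1.trans hmA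
    exact le_of_mul_le_mul_right h2 hA0
  have hL : 0 ≤ Real.log K := Real.log_nonneg hK
  have hlm : 0 < Real.log m := Real.log_pos (by exact_mod_cast hm)
  have hLm : 0 ≤ Real.log K / Real.log m := by positivity
  refine ⟨d, B, v, T, ?_, h1, h2, h3, h4, h5, ?_, h6⟩
  · refine hd.trans ?_
    apply mul_le_mul_of_nonneg_right (hC₀₁.trans hCe)
    linarith
  · have h7 : ε * Real.log (1 + Real.log K) ≤ Real.log m := by
      have := Real.log_le_log (Real.rpow_pos_of_pos (by linarith) ε) hmK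
      rwa [Real.log_rpow (by linarith)] at this
    have h8 : Real.log (1 + Real.log K) / Real.log m ≤ 1 / ε := by
      rw [div_le_div_iff₀ hlm hε]
      linarith
    have h9 : C₀ * (1 + Real.log K) * (1 + Real.log (1 + Real.log K) / Real.log m) ≤
        C₁ + C₁ * Real.log K := by
      calc C₀ * (1 + Real.log K) * (1 + Real.log (1 + Real.log K) / Real.log m)
          ≤ C₀ * (1 + Real.log K) * (1 + 1 / ε) := by gcongr
        _ = C₁ + C₁ * Real.log K := by rw [hC₁]; ring
    refine hT.trans ((Real.exp_le_exp.2 h9).trans ?_)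
    rw [Real.exp_add]
    apply mul_le_mul_of_nonneg_left _ (Real.exp_pos _).le
    have h10 : Real.exp (C₁ * Real.log K) = K ^ C₁ := by
      rw [Real.rpow_def_of_pos (by linarith), mul_comm]
    rw [h10]
    exact Real.rpow_le_rpow_of_exponent_le hK hCe

end Pool.Agent.W_626a77_h42
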