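import Pool.Agent.W_626a77_h42.Shrink
import Pool.Agent.W_626a77_h48.Adapter

/-!
# Freiman-Ruzsa over the integers for iterated sumsets (MP_626a77_co, helper42)
-/

set_option autoImplicit false

open scoped Pointwise

namespace Pool.Agent.W_626a77_h42

/-- The `m`-fold sumset `A + ... + A` (`{0}` for `m = 0`). -/
def msum : ℕ → Finset ℤ → Finset ℤ
  | 0, _ => {0}
  | n + 1, A => msum n A + A

theorem msum_zero (A : Finset ℤ) : msum 0 A = {0} := rfl

theorem msum_succ (n : ℕ) (A : Finset ℤ) : msum (n + 1) A = msum n A + A := rfl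

theorem msum_one (A : Finset ℤ) : msum 1 A = A := by
  rw [msum_succ, msum_zero]
  ext x
  simp [Finset.mem_add]

theorem msum_add (a b : ℕ) (A : Finset ℤ) : msum (a + b) A = msum a A + msum b A := by
  induction b with
  | zero =>
    rw [Nat.add_zero, msum_zero]
    ext x
    simp [Finset.mem_add]
  | succ b ih => rw [← Nat.add_assoc, msum_succ, ih, msum_succ, add_assoc]

theorem msum_nonempty {A : Finset ℤ} (hA : A.Nonempty) (n : ℕ) : (msum n A).Nonempty := by
  induction n with
  | zero => rw [msum_zero]; exact Finset.singleton_nonempty _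
  | succ n ih => rw [msum_succ]; exact ih.add hA

theorem card_msum_mono {A : Finset ℤ} (hA : A.Nonempty) {a b : ℕ} (h : a ≤ b) :
    (msum a A).card ≤ (msum b A).card := by
  obtain ⟨c, rfl⟩ := Nat.exists_eq_add_of_le h
  rw [msum_add]
  exact Finset.card_le_card_add_right (msum_nonempty hA c)

theorem pigeon (a : ℕ → ℝ) (J : ℕ) (hJ : 1 ≤ J) (K : ℝ) (hK : 1 ≤ K)
    (h : a J ≤ K * a 0) : ∃ i < J, a (i + 1) ≤ K ^ ((1 : ℝ) / J) * a i := by
  by_contra hcon
  push Not at hcon
  set κ := K ^ ((1 : ℝ) / J) with hκ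
  have hκ0 : 0 < κ := Real.rpow_pos_of_pos (by linarith) _
  have h1 : ∀ i, i < J → κ ^ (i + 1) * a 0 < a (i + 1) := by
    intro i
    induction i with
    | zero => intro hi; simpa using hcon 0 hi
    | succ i ih =>
      intro hi
      have h2 := ih (by omega)
      have h3 := hcon (i + 1) hi
      calc κ ^ (i + 1 + 1) * a 0 = κ * (κ ^ (i + 1) * a 0) := by ring
        _ < κ * a (i + 1) := by gcongr
        _ < a (i + 1 + 1) := h3
  have h2 := h1 (J - 1) (by omega)
  have e : J - 1 + 1 = J := by omega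
  rw [e] at h2
  have h3 : κ ^ J = K := by
    rw [hκ, ← Real.rpow_natCast, ← Real.rpow_mul (by linarith), one_div,
      inv_mul_cancel₀ (by positivity), Real.rpow_one]
  rw [h3] at h2
  linarith

/-- Freiman-Ruzsa for iterated sumsets: general form. -/
theorem iterated :
    ∃ C : ℝ, 0 < C ∧ ∀ (m : ℕ) (K : ℝ) (A : Finset ℤ), 2 ≤ m → A.Nonempty →
      (((msum m A).card : ℝ) ≤ K * (A.card : ℝ)) →
      ∃ (d : ℕ) (B : Set (Fin d → ℝ)) (v : Fin d → ℤ) (T : Finset ℤ),
        (d : ℝ) ≤ C * (1 + Real.log K / Real.log m) ∧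
        Convex ℝ B ∧ IsCompact B ∧ (interior B).Nonempty ∧ (∀ x ∈ B, -x ∈ B) ∧
        ({x : Fin d → ℤ | (fun i => (x i : ℝ)) ∈ B}.ncard ≤ A.card) ∧
        ((T.card : ℝ) ≤
          Real.exp (C * (1 + Real.log K) * (1 + Real.log (1 + Real.log K) / Real.log m))) ∧
        ∀ a ∈ A, ∃ t ∈ T, ∃ x : Fin d → ℤ,
          (fun i => (x i : ℝ)) ∈ B ∧ a = t + ∑ i, v i * x i := by
  classical
  obtain ⟨C₀, hC₀, hQ⟩ := Pool.Agent.QFR.quasi_optimal
  refine ⟨7 * C₀ + 1, by positivity, ?_⟩
  intro m K A hm hA hmA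
  have hA0 : (0:ℝ) < A.card := by exact_mod_cast Finset.card_pos.2 hA
  have hK : 1 ≤ K := by
    have h1 : (A.card : ℝ) ≤ (msum m A).card := by
      have := card_msum_mono hA (by omega : 1 ≤ m)
      rw [msum_one] at this
      exact_mod_cast this
    have h2 : (1:ℝ) * A.card ≤ K * A.card := by rw [one_mul]; exact h1.trans hmA
    exact le_of_mul_le_mul_right h2 hA0
  have hL : 0 ≤ Real.log K := Real.log_nonneg hK
  have hlm : 0 < Real.log m := Real.log_pos (by exact_mod_cast hm)
  -- the scale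
  set J := Nat.log 2 m with hJdef
  have hJ1 : 1 ≤ J := Nat.log_pos (by norm_num) hm
  have hJm : 2 ^ J ≤ m := Nat.pow_log_le_self 2 (by omega)
  have hJ2 : m < 2 ^ (J + 1) := Nat.lt_pow_succ_log_self (by norm_num) m
  have hJ0 : (0:ℝ) < J := by exact_mod_cast hJ1
  have hJlog : Real.log m ≤ 2 * J := by
    have h1 : Real.log m ≤ Real.log ((2:ℝ) ^ (J + 1)) := by
      apply Real.log_le_log (by exact_mod_cast (by omega : 0 < m))
      exact_mod_cast hJ2.le
    rw [Real.log_pow] at h1
    have h2 : Real.log 2 ≤ 1 := by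
      have := Real.log_two_lt_d9
      linarith
    have h3 : ((J + 1 : ℕ) : ℝ) * Real.log 2 ≤ ((J + 1 : ℕ) : ℝ) * 1 := by gcongr
    have h4 : (1:ℝ) ≤ J := by exact_mod_cast hJ1
    push_cast at h1 h3
    linarith
  obtain ⟨i, hiJ, hi⟩ := pigeon (fun i => ((msum (2 ^ i) A).card : ℝ)) J hJ1 K hK
    (by
      simp only [pow_zero, msum_one]
      refine le_trans ?_ hmA
      exact_mod_cast card_msum_mono hA hJm)
  set K' := K ^ ((1 : ℝ) / J) with hK'
  have hlogK' : Real.log K' = Real.log K / J := by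
    rw [hK', Real.log_rpow (by linarith)]; ring
  set A' := msum (2 ^ i) A with hA'
  have hA'n : A'.Nonempty := msum_nonempty hA _
  have hA'A' : ((A' + A').card : ℝ) ≤ K' * A'.card := by
    have : A' + A' = msum (2 ^ (i + 1)) A := by
      rw [hA', ← msum_add]; congr 1; ring
    rw [this]; exact hi
  obtain ⟨d, B, v, T₀, hd, hBc, hBk, hBi, hBs, hBn, hT₀, hcov⟩ := hQ K' A' hA'n hA'A'
  have hBody : Body B := ⟨hBc, hBk, hBi, hBs⟩
  have hlatB : ((lat B).card : ℝ) ≤ K * (A.card : ℕ) := by
    rw [card_lat hBk]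
    have h1 : ({x : Fin d → ℤ | rv x ∈ B}.ncard : ℝ) ≤ A'.card := by exact_mod_cast hBn
    refine h1.trans (le_trans ?_ hmA)
    exact_mod_cast card_msum_mono hA ((Nat.pow_le_pow_right (by norm_num) hiJ.le).trans hJm)
  obtain ⟨B', P, hB', hB'n, hP, hPcov⟩ := shrink hBody A.card (Finset.card_pos.2 hA) K hK hlatB
  obtain ⟨s, hs⟩ := msum_nonempty hA (2 ^ i - 1)
  have hshift : ∀ a ∈ A, s + a ∈ A' := by
    intro a ha
    have : A' = msum (2 ^ i - 1) A + A := by
      rw [hA', ← msum_succ]; congr 1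
      have : 1 ≤ 2 ^ i := Nat.one_le_two_pow
      omega
    rw [this]
    exact Finset.add_mem_add hs ha
  -- bounds
  obtain ⟨x, hx⟩ : ∃ x, x = Real.log K / J := ⟨_, rfl⟩
  have hx0 : 0 ≤ x := by rw [hx]; positivity
  have hxL : x ≤ Real.log K := by
    rw [hx]
    exact div_le_self hL (by exact_mod_cast hJ1)
  have hxm : x ≤ 2 * (Real.log K / Real.log m) := by
    rw [hx, ← mul_div_assoc, div_le_div_iff₀ hJ0 hlm]
    nlinarith
  rw [hlogK', ← hx] at hd hT₀
  have hLm : 0 ≤ Real.log K / Real.log m := by positivity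
  refine ⟨d, B', v, (T₀ ×ˢ P).image (fun q => q.1 + ∑ i, v i * q.2 i - s), ?_, hB'.conv, hB'.cpt,
    hB'.int, hB'.symm, ?_, ?_, ?_⟩
  · refine hd.trans ?_
    nlinarith
  · have h := hB'n
    rw [card_lat hB'.cpt] at h
    exact h
  · obtain ⟨ℓ, hℓ⟩ : ∃ ℓ, ℓ = Real.log (1 + Real.log K) := ⟨_, rfl⟩
    rw [← hℓ]
    have hℓ0 : 0 ≤ ℓ := by rw [hℓ]; exact Real.log_nonneg (by linarith)
    have hℓL : ℓ ≤ Real.log K := by
      rw [hℓ]
      have := Real.log_le_sub_one_of_pos (by linarith : 0 < 1 + Real.log K)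
      linarith
    have hlx : Real.log (1 + x) ≤ ℓ := by
      rw [hℓ]; exact Real.log_le_log (by linarith) (by linarith)
    have h1 : (((T₀ ×ˢ P).image (fun q => q.1 + ∑ i, v i * q.2 i - s)).card : ℝ) ≤
        T₀.card * P.card := by
      have : ((T₀ ×ˢ P).image (fun q => q.1 + ∑ i, v i * q.2 i - s)).card ≤ T₀.card * P.card := by
        rw [← Finset.card_product]; exact Finset.card_image_le
      exact_mod_cast this
    have h125 : (125 : ℝ) ^ d ≤ Real.exp (5 * d) := by
      have h5 : (125:ℝ) ≤ Real.exp 5 := by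
        have h6 := Real.exp_one_gt_d9
        have h7 : Real.exp 5 = Real.exp 1 ^ 5 := by
          rw [← Real.exp_nat_mul]; norm_num
        rw [h7]
        calc (125:ℝ) ≤ 2.7182818283 ^ 5 := by norm_num
          _ ≤ Real.exp 1 ^ 5 := by gcongr
      calc (125:ℝ) ^ d ≤ Real.exp 5 ^ d := by gcongr
        _ = Real.exp (5 * d) := by rw [← Real.exp_nat_mul]; ring_nf
    have hKpos : 0 < K := by linarith
    have hP2 : (P.card : ℝ) ≤ Real.exp (5 * d) * K :=
      hP.trans (mul_le_mul_of_nonneg_right h125 hKpos.le)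
    refine h1.trans ?_
    calc (T₀.card : ℝ) * P.card
        ≤ Real.exp (C₀ * (1 + x) * (1 + Real.log (1 + x))) * (Real.exp (5 * d) *
            Real.exp (Real.log K)) := by
          rw [Real.exp_log hKpos]
          exact mul_le_mul hT₀ hP2 (Nat.cast_nonneg _) (Real.exp_pos _).le
      _ = Real.exp (C₀ * (1 + x) * (1 + Real.log (1 + x)) + (5 * d + Real.log K)) := by
          rw [Real.exp_add, Real.exp_add]
      _ ≤ _ := by
          rw [Real.exp_le_exp]
          have h2 : (1 + x) * (1 + Real.log (1 + x)) ≤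
              2 * ((1 + Real.log K) * (1 + ℓ / Real.log m)) := by
            have h3 : (1 + x) * (1 + Real.log (1 + x)) ≤ (1 + x) * (1 + ℓ) := by gcongr
            have h4 : x * ℓ ≤ 2 * (Real.log K * (ℓ / Real.log m)) := by
              calc x * ℓ ≤ 2 * (Real.log K / Real.log m) * ℓ := by gcongr
                _ = 2 * (Real.log K * (ℓ / Real.log m)) := by ring
            have h5 : 0 ≤ ℓ / Real.log m := by positivity
            nlinarith
          have h6 : C₀ * (1 + x) * (1 + Real.log (1 + x)) ≤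
              C₀ * (2 * ((1 + Real.log K) * (1 + ℓ / Real.log m))) := by
            rw [mul_assoc]; gcongr
          have h5 : 0 ≤ ℓ / Real.log m := by positivity
          have h7 : (1 + Real.log K) ≤ (1 + Real.log K) * (1 + ℓ / Real.log m) := by
            have : 0 ≤ (1 + Real.log K) * (ℓ / Real.log m) := by positivity
            linarith
          have h8 : 5 * (d : ℝ) ≤ 5 * C₀ * ((1 + Real.log K) * (1 + ℓ / Real.log m)) := by
            have : (d : ℝ) ≤ C₀ * ((1 + Real.log K) * (1 + ℓ / Real.log m)) := by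
              refine hd.trans ?_
              gcongr
              linarith
            linarith
          have h9 : (7 * C₀ + 1) * (1 + Real.log K) * (1 + ℓ / Real.log m) =
              C₀ * (2 * ((1 + Real.log K) * (1 + ℓ / Real.log m))) +
              (5 * C₀ * ((1 + Real.log K) * (1 + ℓ / Real.log m)) +
              (1 + Real.log K) * (1 + ℓ / Real.log m)) := by ring
          rw [h9]
          linarith
  · intro a ha
    obtain ⟨t, ht, y, hy, hay⟩ := hcov (s + a) (hshift a ha)
    obtain ⟨p, hp, hyp⟩ := hPcov y ((mem_lat hBk y).2 hy)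
    refine ⟨t + ∑ i, v i * p i - s, ?_, y - p, hyp, ?_⟩
    · rw [Finset.mem_image]
      exact ⟨(t, p), Finset.mem_product.2 ⟨ht, hp⟩, rfl⟩
    · have h1 : ∑ i, v i * (y - p) i = ∑ i, v i * y i - ∑ i, v i * p i := by
        rw [← Finset.sum_sub_distrib]
        apply Finset.sum_congr rfl
        intro i _
        simp only [Pi.sub_apply]
        ring
      rw [h1]
      linarith

end Pool.Agent.W_626a77_h42
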