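import Mathlib

/-!
# Shrinking a symmetric convex body (MP_626a77_co, helper42)

A symmetric convex body with `N ≤ K n` lattice points is covered by `125 ^ d * K` lattice translates
of a dilate which has at most `n` lattice points.
-/

set_option autoImplicit false

open scoped Pointwise
open MeasureTheory

namespace Pool.Agent.W_626a77_h42

variable {d : ℕ}

/-- the real vector of an integer vector -/
def rv (x : Fin d → ℤ) : Fin d → ℝ := fun i => (x i : ℝ)

theorem rv_add (x y : Fin d → ℤ) : rv (x + y) = rv x + rv y := by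
  ext i; simp [rv]

theorem rv_sub (x y : Fin d → ℤ) : rv (x - y) = rv x - rv y := by
  ext i; simp [rv]

theorem rv_zero : rv (0 : Fin d → ℤ) = 0 := by
  ext i; simp [rv]

theorem rv_injective : Function.Injective (rv : (Fin d → ℤ) → (Fin d → ℝ)) := by
  intro x y h
  ext i
  have := congrFun h i
  simpa [rv] using this

/-- Symmetric convex bodies -/
structure Body (B : Set (Fin d → ℝ)) : Prop where
  conv : Convex ℝ B
  cpt : IsCompact B
  int : (interior B).Nonempty
  symm : ∀ x ∈ B, -x ∈ B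

theorem finite_lat {B : Set (Fin d → ℝ)} (hB : IsCompact B) :
    {x : Fin d → ℤ | rv x ∈ B}.Finite := by
  obtain ⟨R, hR⟩ := hB.isBounded.subset_closedBall 0
  obtain ⟨M, hM⟩ := exists_nat_ge R
  apply Set.Finite.subset (Set.finite_Icc (fun _ => -(M : ℤ)) (fun _ => (M : ℤ)))
  intro x hx
  have h1 : rv x ∈ Metric.closedBall (0 : Fin d → ℝ) R := hR hx
  rw [mem_closedBall_zero_iff] at h1
  have h2 : ∀ i, |(x i : ℝ)| ≤ M := fun i => by
    have := norm_le_pi_norm (rv x) i
    rw [Real.norm_eq_abs] at this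
    exact (this.trans h1).trans hM
  constructor
  · intro i
    have := (abs_le.1 (h2 i)).1
    have h3 : ((-(M : ℤ) : ℤ) : ℝ) ≤ (x i : ℝ) := by push_cast; exact this
    exact_mod_cast h3
  · intro i
    have := (abs_le.1 (h2 i)).2
    exact_mod_cast this

/-- lattice points of a compact set, as a finset (empty if the set is not compact) -/
noncomputable def lat (B : Set (Fin d → ℝ)) : Finset (Fin d → ℤ) := by
  classical
  exact if h : {x : Fin d → ℤ | rv x ∈ B}.Finite then h.toFinset else ∅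

theorem mem_lat {B : Set (Fin d → ℝ)} (hB : IsCompact B) (x : Fin d → ℤ) :
    x ∈ lat B ↔ rv x ∈ B := by
  unfold lat
  rw [dif_pos (finite_lat hB)]
  simp

theorem card_lat {B : Set (Fin d → ℝ)} (hB : IsCompact B) :
    (lat B).card = {x : Fin d → ℤ | rv x ∈ B}.ncard := by
  rw [← Set.ncard_coe_finset]
  congr 1
  ext x
  simp [mem_lat hB]

namespace Body

variable {B : Set (Fin d → ℝ)}

theorem zero_mem (h : Body B) : (0 : Fin d → ℝ) ∈ B := by
  obtain ⟨x, hx⟩ := h.int
  have hx := interior_subset hx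
  have h2 := h.symm x hx
  have := h.conv hx h2 (by norm_num : (0:ℝ) ≤ 1/2) (by norm_num : (0:ℝ) ≤ 1/2) (by norm_num)
  simpa using this

theorem smul (h : Body B) {r : ℝ} (hr : 0 < r) : Body (r • B) where
  conv := h.conv.smul r
  cpt := h.cpt.smul r
  int := by
    rw [interior_smul₀ hr.ne']
    exact h.int.smul_set
  symm := by
    rintro x ⟨y, hy, rfl⟩
    exact ⟨-y, h.symm y hy, by simp⟩

theorem smul_mono (h : Body B) {r s : ℝ} (hr : 0 ≤ r) (hrs : r ≤ s) : r • B ⊆ s • B := by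
  rcases eq_or_lt_of_le (hr.trans hrs) with h0 | h0
  · have : r = 0 := le_antisymm (by linarith) hr
    rw [this, ← h0]
  rintro x ⟨y, hy, rfl⟩
  refine ⟨(r / s) • y, ?_, ?_⟩
  · have := h.conv hy h.zero_mem (div_nonneg hr h0.le)
      (by rw [sub_nonneg]; exact (div_le_one h0).2 hrs : 0 ≤ 1 - r / s) (by ring)
    simpa using this
  · simp only [smul_smul]
    rw [mul_div_cancel₀ _ h0.ne']

theorem add_mem (h : Body B) {r s : ℝ} (hr : 0 ≤ r) (hs : 0 ≤ s) {x y : Fin d → ℝ}
    (hx : x ∈ r • B) (hy : y ∈ s • B) : x + y ∈ (r + s) • B := by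
  rw [h.conv.add_smul hr hs]
  exact Set.add_mem_add hx hy

theorem neg_mem_smul (h : Body B) {r : ℝ} {x : Fin d → ℝ} (hx : x ∈ r • B) : -x ∈ r • B := by
  obtain ⟨y, hy, rfl⟩ := hx
  exact ⟨-y, h.symm y hy, by simp⟩

theorem sub_mem (h : Body B) {r s : ℝ} (hr : 0 ≤ r) (hs : 0 ≤ s) {x y : Fin d → ℝ}
    (hx : x ∈ r • B) (hy : y ∈ s • B) : x - y ∈ (r + s) • B := by
  rw [sub_eq_add_neg]
  exact h.add_mem hr hs hx (h.neg_mem_smul hy)

end Body

/-- maximal separated subset -/
theorem exists_sep (X : Finset (Fin d → ℤ)) {D : Set (Fin d → ℝ)} (hD : Body D) :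
    ∃ P ⊆ X, (∀ p ∈ P, ∀ q ∈ P, p ≠ q → rv (p - q) ∉ D) ∧
      ∀ x ∈ X, ∃ p ∈ P, rv (x - p) ∈ D := by
  classical
  set F := X.powerset.filter (fun P => ∀ p ∈ P, ∀ q ∈ P, p ≠ q → rv (p - q) ∉ D) with hF
  have hne : F.Nonempty := ⟨∅, by simp [hF]⟩
  obtain ⟨P, hP, hmax⟩ := F.exists_max_image Finset.card hne
  simp only [hF, Finset.mem_filter, Finset.mem_powerset] at hP
  refine ⟨P, hP.1, hP.2, ?_⟩
  intro x hx
  by_contra hcon
  push Not at hcon
  have hxP : x ∉ P := fun h => hcon x h (by rw [sub_self, rv_zero]; exact hD.zero_mem)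
  have hins : insert x P ∈ F := by
    simp only [hF, Finset.mem_filter, Finset.mem_powerset]
    refine ⟨Finset.insert_subset hx hP.1, ?_⟩
    intro p hp q hq hpq
    rw [Finset.mem_insert] at hp hq
    rcases hp with rfl | hp
    · rcases hq with rfl | hq
      · exact absurd rfl hpq
      · exact hcon q hq
    · rcases hq with rfl | hq
      · intro h
        apply hcon p hp
        have := hD.symm _ h
        rwa [rv_sub, neg_sub, ← rv_sub] at this
      · exact hP.2 p hp q hq hpq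
  have := hmax _ hins
  rw [Finset.card_insert_of_notMem hxP] at this
  omega

/-- volume packing: a `D`-separated subset of the lattice points of `2 D` has at most `5 ^ d`
elements -/
theorem card_sep_le {D : Set (Fin d → ℝ)} (hD : Body D) (P : Finset (Fin d → ℤ))
    (hP : ∀ p ∈ P, rv p ∈ (2 : ℝ) • D)
    (hsep : ∀ p ∈ P, ∀ q ∈ P, p ≠ q → rv (p - q) ∉ D) : P.card ≤ 5 ^ d := by
  classical
  have hH := hD.smul (by norm_num : (0:ℝ) < 1 / 2)
  set H : Set (Fin d → ℝ) := (1 / 2 : ℝ) • D with hHdef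
  have hHm : MeasurableSet H := hH.cpt.isClosed.measurableSet
  have hvol0 : volume H ≠ 0 := by
    have h1 : 0 < volume (interior H) := isOpen_interior.measure_pos _ hH.int
    exact (h1.trans_le (measure_mono interior_subset)).ne'
  have hvolt : volume H ≠ ⊤ := hH.cpt.measure_lt_top.ne
  have hdisj : Set.PairwiseDisjoint (P : Set (Fin d → ℤ)) (fun p => rv p +ᵥ H) := by
    intro p hp q hq hpq
    rw [Function.onFun, Set.disjoint_left]
    rintro _ ⟨x, hx, rfl⟩ ⟨y, hy, hxy⟩
    apply hsep p hp q hq hpq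
    simp only [vadd_eq_add] at hxy
    have h2 : rv (p - q) = y - x := by
      rw [rv_sub, sub_eq_sub_iff_add_eq_add, ← hxy, add_comm]
    rw [h2]
    have h3 := hD.sub_mem (by norm_num : (0:ℝ) ≤ 1/2) (by norm_num : (0:ℝ) ≤ 1/2) hy hx
    norm_num at h3
    exact h3
  have hsub : (⋃ p ∈ P, (rv p +ᵥ H)) ⊆ (5 : ℝ) • H := by
    intro z hz
    simp only [Set.mem_iUnion] at hz
    obtain ⟨p, hp, x, hx, rfl⟩ := hz
    have h3 := hD.add_mem (by norm_num : (0:ℝ) ≤ 2) (by norm_num : (0:ℝ) ≤ 1/2) (hP p hp) hx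
    rw [hHdef, smul_smul]
    norm_num at h3 ⊢
    exact h3
  have h1 : (P.card : ENNReal) * volume H ≤ (5 : ENNReal) ^ d * volume H := by
    calc (P.card : ENNReal) * volume H = ∑ p ∈ P, volume (rv p +ᵥ H) := by
          simp [measure_vadd]
      _ = volume (⋃ p ∈ P, (rv p +ᵥ H)) := by
          rw [measure_biUnion_finset hdisj]
          intro p _
          exact hHm.const_vadd _
      _ ≤ volume ((5 : ℝ) • H) := measure_mono hsub
      _ = (5 : ENNReal) ^ d * volume H := by
          rw [Measure.addHaar_smul]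
          simp [abs_of_pos]
  rw [ENNReal.mul_le_mul_iff_left hvol0 hvolt] at h1
  exact_mod_cast h1

/-- lattice points of `2 D` -/
theorem card_double {D : Set (Fin d → ℝ)} (hD : Body D) :
    (lat ((2 : ℝ) • D)).card ≤ 5 ^ d * (lat D).card := by
  classical
  have h2 := hD.smul (by norm_num : (0:ℝ) < 2)
  obtain ⟨P, hPX, hsep, hcov⟩ := exists_sep (lat ((2 : ℝ) • D)) hD
  have hP := card_sep_le hD P (fun p hp => (mem_lat h2.cpt p).1 (hPX hp)) hsep
  have hsub : lat ((2 : ℝ) • D) ⊆ (P ×ˢ lat D).image (fun x => x.1 + x.2) := by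
    intro x hx
    obtain ⟨p, hp, h⟩ := hcov x hx
    rw [Finset.mem_image]
    refine ⟨(p, x - p), ?_, by simp⟩
    rw [Finset.mem_product]
    exact ⟨hp, (mem_lat hD.cpt _).2 h⟩
  calc (lat ((2 : ℝ) • D)).card ≤ ((P ×ˢ lat D).image (fun x => x.1 + x.2)).card :=
        Finset.card_le_card hsub
    _ ≤ (P ×ˢ lat D).card := Finset.card_image_le
    _ = P.card * (lat D).card := Finset.card_product _ _
    _ ≤ 5 ^ d * (lat D).card := Nat.mul_le_mul_right _ hP

theorem pow_smul_zero (B : Set (Fin d → ℝ)) : ((1 / 2 : ℝ) ^ 0) • B = B := by simp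

/-- The shrinking lemma. -/
theorem shrink {B : Set (Fin d → ℝ)} (hB : Body B) (n : ℕ) (hn : 1 ≤ n) (K : ℝ) (hK : 1 ≤ K)
    (hcard : ((lat B).card : ℝ) ≤ K * n) :
    ∃ (B' : Set (Fin d → ℝ)) (P : Finset (Fin d → ℤ)), Body B' ∧ (lat B').card ≤ n ∧
      (P.card : ℝ) ≤ 125 ^ d * K ∧ ∀ x ∈ lat B, ∃ p ∈ P, rv (x - p) ∈ B' := by
  classical
  by_cases hN : (lat B).card ≤ n
  · refine ⟨B, {0}, hB, hN, ?_, ?_⟩
    · simp only [Finset.card_singleton, Nat.cast_one]
      have : (1:ℝ) ≤ 125 ^ d := one_le_pow₀ (by norm_num)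
      nlinarith
    · intro x hx
      refine ⟨0, by simp, ?_⟩
      rw [sub_zero]
      exact (mem_lat hB.cpt x).1 hx
  push Not at hN
  have hbody : ∀ i : ℕ, Body (((1 / 2 : ℝ) ^ i) • B) := fun i => hB.smul (by positivity)
  have hex : ∃ i : ℕ, (lat (((1 / 2 : ℝ) ^ i) • B)).card ≤ n := by
    obtain ⟨R, hR⟩ := hB.cpt.isBounded.subset_closedBall 0
    obtain ⟨i, hi⟩ := exists_pow_lt_of_lt_one (by positivity : (0:ℝ) < 1 / (|R| + 1))
      (by norm_num : (1/2 : ℝ) < 1)
    refine ⟨i, ?_⟩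
    have h1 : lat (((1 / 2 : ℝ) ^ i) • B) ⊆ {0} := by
      intro x hx
      rw [mem_lat (hbody i).cpt] at hx
      obtain ⟨y, hy, hxy⟩ := hx
      have h2 := hR hy
      rw [mem_closedBall_zero_iff] at h2
      have h3 : ‖rv x‖ < 1 := by
        rw [← hxy]
        simp only
        rw [norm_smul, Real.norm_of_nonneg (by positivity)]
        have hR0 : 0 < |R| + 1 := by positivity
        rw [lt_div_iff₀ hR0] at hi
        have : ‖y‖ ≤ |R| + 1 := by linarith [le_abs_self R]
        calc (1 / 2 : ℝ) ^ i * ‖y‖ ≤ (1 / 2 : ℝ) ^ i * (|R| + 1) := by gcongr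
          _ < 1 := hi
      rw [Finset.mem_singleton]
      ext j
      have h4 := norm_le_pi_norm (rv x) j
      have h5 : |(x j : ℝ)| < 1 := by
        rw [Real.norm_eq_abs] at h4
        exact lt_of_le_of_lt h4 h3
      have h6 : |x j| < 1 := by exact_mod_cast h5
      have h7 : x j = 0 := Int.abs_lt_one_iff.1 h6
      simpa using h7
    calc (lat (((1 / 2 : ℝ) ^ i) • B)).card ≤ ({0} : Finset (Fin d → ℤ)).card :=
          Finset.card_le_card h1
      _ = 1 := by simp
      _ ≤ n := hn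
  set i := Nat.find hex with hi
  have hi1 : (lat (((1 / 2 : ℝ) ^ i) • B)).card ≤ n := Nat.find_spec hex
  have hi0 : i ≠ 0 := by
    intro h0
    rw [h0, pow_smul_zero] at hi1
    omega
  obtain ⟨j, hj⟩ := Nat.exists_eq_succ_of_ne_zero hi0
  have hj2 : n < (lat (((1 / 2 : ℝ) ^ j) • B)).card := by
    have := Nat.find_min hex (m := j) (by omega)
    omega
  obtain ⟨P, hPX, hsep, hcov⟩ := exists_sep (lat B) (hbody i)
  refine ⟨((1 / 2 : ℝ) ^ i) • B, P, hbody i, hi1, ?_, hcov⟩
  -- the counting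
  have hB2 := hB.smul (by norm_num : (0:ℝ) < 2)
  have hb' := hbody (i + 1)
  have hcount : P.card * (lat (((1 / 2 : ℝ) ^ (i + 1)) • B)).card ≤ (lat ((2 : ℝ) • B)).card := by
    rw [← Finset.card_product]
    apply Finset.card_le_card_of_injOn (fun x => x.1 + x.2)
    · intro x hx
      rw [Finset.mem_coe, Finset.mem_product] at hx
      have h1 := (mem_lat hB.cpt _).1 (hPX hx.1)
      have h2 := (mem_lat hb'.cpt _).1 hx.2
      rw [Finset.mem_coe, mem_lat hB2.cpt, rv_add]
      have h1' : rv x.1 ∈ (1 : ℝ) • B := by simpa using h1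
      have h2' : rv x.2 ∈ (1 : ℝ) • B :=
        hB.smul_mono (by positivity) (pow_le_one₀ (by norm_num) (by norm_num)) h2
      have h3 := hB.add_mem (by norm_num) (by norm_num) h1' h2'
      norm_num at h3
      exact h3
    · intro x hx y hy hxy
      rw [Finset.mem_coe, Finset.mem_product] at hx hy
      have h2 := (mem_lat hb'.cpt _).1 hx.2
      have h3 := (mem_lat hb'.cpt _).1 hy.2
      have hxy' : x.1 + x.2 = y.1 + y.2 := hxy
      by_cases h : x.1 = y.1
      · refine Prod.ext h ?_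
        rw [h] at hxy'
        exact add_left_cancel hxy'
      · exfalso
        apply hsep x.1 hx.1 y.1 hy.1 h
        have h5 : x.1 - y.1 = y.2 - x.2 := by
          rw [sub_eq_sub_iff_add_eq_add, hxy', add_comm]
        rw [h5, rv_sub]
        have h6 := hB.sub_mem (by positivity) (by positivity) h3 h2
        have e : (1 / 2 : ℝ) ^ (i + 1) + (1 / 2 : ℝ) ^ (i + 1) = (1 / 2 : ℝ) ^ i := by
          rw [pow_succ]; ring
        rwa [e] at h6
  have hd1 : (lat ((2 : ℝ) • B)).card ≤ 5 ^ d * (lat B).card := card_double hB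
  have hd2 : (lat (((1 / 2 : ℝ) ^ j) • B)).card ≤
      5 ^ d * (5 ^ d * (lat (((1 / 2 : ℝ) ^ (i + 1)) • B)).card) := by
    have e1 : ((1 / 2 : ℝ) ^ j) • B = (2 : ℝ) • (((1 / 2 : ℝ) ^ i) • B) := by
      rw [smul_smul]; congr 1; rw [hj, pow_succ]; ring
    have e2 : ((1 / 2 : ℝ) ^ i) • B = (2 : ℝ) • (((1 / 2 : ℝ) ^ (i + 1)) • B) := by
      rw [smul_smul]; congr 1; rw [pow_succ]; ring
    rw [e1]
    refine (card_double (hbody i)).trans (Nat.mul_le_mul_left _ ?_)
    conv_lhs => rw [e2]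
    exact card_double hb'
  set q := (lat (((1 / 2 : ℝ) ^ (i + 1)) • B)).card with hq
  have hn0 : (0:ℝ) < n := by exact_mod_cast hn
  have h1 : (n : ℝ) ≤ 25 ^ d * q := by
    have : n ≤ 5 ^ d * (5 ^ d * q) := hj2.le.trans hd2
    have h2 : (n : ℝ) ≤ 5 ^ d * (5 ^ d * q) := by exact_mod_cast this
    have e : (25 : ℝ) ^ d = 5 ^ d * 5 ^ d := by rw [← mul_pow]; norm_num
    rw [e, mul_assoc]; exact h2
  have h2 : (P.card : ℝ) * q ≤ 5 ^ d * (K * n) := by
    have h3 : (P.card : ℝ) * q ≤ 5 ^ d * (lat B).card := by exact_mod_cast hcount.trans hd1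
    refine h3.trans ?_
    gcongr
  have hq0 : (0:ℝ) < q := by
    by_contra hcon
    have : (q : ℝ) = 0 := le_antisymm (not_lt.1 hcon) (Nat.cast_nonneg _)
    rw [this] at h1
    linarith
  have h3 : (P.card : ℝ) * n ≤ 125 ^ d * K * n := by
    calc (P.card : ℝ) * n ≤ P.card * (25 ^ d * q) := by gcongr
      _ = 25 ^ d * (P.card * q) := by ring
      _ ≤ 25 ^ d * (5 ^ d * (K * n)) := by gcongr
      _ = 125 ^ d * K * n := by
        have e : (125 : ℝ) ^ d = 25 ^ d * 5 ^ d := by rw [← mul_pow]; norm_num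
        rw [e]; ring
  exact le_of_mul_le_mul_right h3 hn0

end Pool.Agent.W_626a77_h42
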